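import Mathlib

set_option autoImplicit false

namespace Pool.Agent.Lib.MP_8c6d5c_co

open Polynomial

/-- A binary matroid on the finite ground set `E`, given by its cycle space, a linear subspace of
`E → ZMod 2`. A subset of `E` is identified with its characteristic vector, so that symmetric
difference becomes addition. -/
abbrev BinaryMatroid (E : Type) : Type := Submodule (ZMod 2) (E → ZMod 2)

section Defs

variable {E : Type} [Fintype E] [DecidableEq E]

/-- The cocycle space: all `x` orthogonal to every cycle (`|C ∩ X|` even for every cycle `C`). -/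
def cocycles (M : BinaryMatroid E) : Submodule (ZMod 2) (E → ZMod 2) where
  carrier := {x | ∀ c ∈ M, ∑ e, c e * x e = 0}
  add_mem' := by
    intro x y hx hy c hc
    have h1 := hx c hc
    have h2 := hy c hc
    simp only [Pi.add_apply, mul_add, Finset.sum_add_distrib, h1, h2, add_zero]
  zero_mem' := by
    intro c _
    simp
  smul_mem' := by
    intro t x hx c hc
    have h1 := hx c hc
    have h2 : ∀ e, c e * (t • x) e = t * (c e * x e) := by
      intro e
      simp only [Pi.smul_apply, smul_eq_mul]
      ring
    simp only [h2, ← Finset.mul_sum, h1, mul_zero]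

/-- The intersection `C ∩ A` of (the set with characteristic vector) `c` with the set `A`. -/
def inter (A : Finset E) (c : E → ZMod 2) : E → ZMod 2 := fun e => if e ∈ A then c e else 0

/-- The bicycle space `B_M(A)`: all cycles `C` such that `C ∩ A` is a cocycle. -/
def bicycle (M : BinaryMatroid E) (A : Finset E) : Submodule (ZMod 2) (E → ZMod 2) where
  carrier := {c | c ∈ M ∧ inter A c ∈ cocycles M}
  add_mem' := by
    intro x y hx hy
    refine ⟨M.add_mem hx.1 hy.1, ?_⟩
    have h : inter A (x + y) = inter A x + inter A y := by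
      funext e
      by_cases he : e ∈ A <;> simp [inter, he]
    rw [h]
    exact (cocycles M).add_mem hx.2 hy.2
  zero_mem' := by
    refine ⟨M.zero_mem, ?_⟩
    have h : inter A (0 : E → ZMod 2) = 0 := by
      funext e
      simp [inter]
    rw [h]
    exact (cocycles M).zero_mem
  smul_mem' := by
    intro t x hx
    refine ⟨M.smul_mem t hx.1, ?_⟩
    have h : inter A (t • x) = t • inter A x := by
      funext e
      by_cases he : e ∈ A <;> simp [inter, he]
    rw [h]
    exact (cocycles M).smul_mem t hx.2

/-- The Penrose polynomial `P_M(X) = ∑_{A ⊆ E} (-1)^|A| X^(dim B_M(A))`. -/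
noncomputable def penrose (M : BinaryMatroid E) : ℤ[X] :=
  ∑ A : Finset E, (-1) ^ A.card * X ^ (Module.finrank (ZMod 2) (bicycle M A))

/-- `C | F`: the cycles contained in `F`. -/
def cyclesIn (M : BinaryMatroid E) (F : Finset E) : Set (E → ZMod 2) :=
  {c | c ∈ M ∧ ∀ e, e ∉ F → c e = 0}

/-- `M` is connected: `E` is nonempty and there is no partition of `E` into nonempty parts `E₁`,
`E₁ᶜ` such that the cycles of `M` are exactly the unions of a cycle contained in `E₁` and a cycle
contained in `E₁ᶜ` (for such a pair, the characteristic vector of the disjoint union is the sum). -/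
def Connected (M : BinaryMatroid E) : Prop :=
  Nonempty E ∧ ¬ ∃ E₁ : Finset E, E₁.Nonempty ∧ E₁ᶜ.Nonempty ∧
    ∀ c : E → ZMod 2, c ∈ M ↔ ∃ c₁ ∈ cyclesIn M E₁, ∃ c₂ ∈ cyclesIn M E₁ᶜ, c = c₁ + c₂

end Defs

end Pool.Agent.Lib.MP_8c6d5c_co
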