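import Pool.Agent.Lib.MP_8c6d5c_co.Defs

set_option autoImplicit false

namespace Pool.Agent.Lib.MP_8c6d5c_co

open Polynomial

section Example

/-- The parametrisation of the cycle space of the example by `(ZMod 2)^5`. The elements `0, ..., 6`
carry the dual Fano matroid and `2, 7, 8` form a parallel class. -/
def par : (Fin 5 → ZMod 2) →ₗ[ZMod 2] (Fin 9 → ZMod 2) where
  toFun v := ![v 1 + v 2, v 0 + v 1, v 0 + v 2 + v 3 + v 4, v 0 + v 1 + v 2, v 0, v 1, v 2, v 3, v 4]
  map_add' := by
    intro v w
    funext e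
    fin_cases e <;> simp <;> ring
  map_smul' := by
    intro t v
    funext e
    fin_cases e <;> simp [mul_add]

/-- The dual Fano matroid on `0, ..., 6` with the two elements `7, 8` added in parallel to `2`. -/
def exM : BinaryMatroid (Fin 9) := LinearMap.range par

/-- bit to `ZMod 2` -/
def zb (b : Bool) : ZMod 2 := if b then 1 else 0

/-- The set of positions of nonzero bits of `a` below 9. -/
def setOf9 (a : ℕ) : Finset (Fin 9) := Finset.univ.filter (fun e => a.testBit e.val = true)

/-- The Boolean form of the bicycle condition. -/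
def cond (a m : ℕ) : Bool :=
  let v0 := m.testBit 0
  let v1 := m.testBit 1
  let v2 := m.testBit 2
  let v3 := m.testBit 3
  let v4 := m.testBit 4
  let t0 := a.testBit 0 && xor v1 v2
  let t1 := a.testBit 1 && xor v0 v1
  let t2 := a.testBit 2 && xor (xor v0 v2) (xor v3 v4)
  let t3 := a.testBit 3 && xor (xor v0 v1) v2
  let t4 := a.testBit 4 && v0
  let t5 := a.testBit 5 && v1
  let t6 := a.testBit 6 && v2
  let t7 := a.testBit 7 && v3
  let t8 := a.testBit 8 && v4
  !(xor (xor t1 t2) (xor t3 t4)) && !(xor (xor t0 t1) (xor t3 t5)) &&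
    !(xor (xor t0 t2) (xor t3 t6)) && !(xor t2 t7) && !(xor t2 t8)

/-- Table of the dimensions of the 512 bicycle spaces, in base 8. -/
def table : ℕ := 989350801383056596345659221581044885771156010633476910733058025931952386005705117052142152264788842330061884448711538515221208525699004442151678061175759700576221180370082864061920473848488200706385306982414370239577083671474995711398355717371722637875015922946647779651305131690102967107518216882212014833214378712604420166256153980600965089048820509094905032698432710848999109843921149830644120250146323471006520336495313764704687783768392124215727087097333541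

/-- The entry of the table at `a`. -/
def tbl (a : ℕ) : ℕ := (table >>> (3 * a)) % 8

/-- The number of vectors satisfying the Boolean condition. -/
def cnt (a : ℕ) : ℕ := (List.range 32).countP (fun m => cond a m)

theorem cnt_eq : (List.range 512).all (fun a => Nat.beq (cnt a) (2 ^ tbl a)) = true := by
  decide +kernel


theorem cnt_eq' (a : ℕ) (ha : a < 512) : cnt a = 2 ^ tbl a := by
  have h := cnt_eq
  rw [List.all_eq_true] at h
  exact Nat.eq_of_beq_eq_true (h a (List.mem_range.mpr ha))

/-- the vector with index `m` -/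
def vecOf (m : ℕ) : Fin 5 → ZMod 2 := fun i => zb (m.testBit i.val)

theorem zb_inj {b c : Bool} (h : zb b = zb c) : b = c := by
  revert h
  cases b <;> cases c <;> decide

theorem vecOf_inj : Function.Injective (fun m : Fin 32 => vecOf m.val) := by
  intro m n h
  apply Fin.ext
  apply Nat.eq_of_testBit_eq
  intro i
  by_cases hi : i < 5
  · have h1 := congrFun h ⟨i, hi⟩
    exact zb_inj h1
  · have hm : m.val < 2 ^ i :=
      lt_of_lt_of_le m.isLt (by
        have : 2 ^ 5 ≤ 2 ^ i := Nat.pow_le_pow_right (by norm_num) (by omega)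
        simpa using this)
    have hn : n.val < 2 ^ i :=
      lt_of_lt_of_le n.isLt (by
        have : 2 ^ 5 ≤ 2 ^ i := Nat.pow_le_pow_right (by norm_num) (by omega)
        simpa using this)
    rw [Nat.testBit_lt_two_pow hm, Nat.testBit_lt_two_pow hn]

theorem vecOf_bij : Function.Bijective (fun m : Fin 32 => vecOf m.val) := by
  rw [Fintype.bijective_iff_injective_and_card]
  exact ⟨vecOf_inj, by simp⟩

theorem setOf9_inj : Function.Injective (fun m : Fin 512 => setOf9 m.val) := by
  intro m n h
  apply Fin.ext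
  apply Nat.eq_of_testBit_eq
  intro i
  by_cases hi : i < 9
  · have h1 : (⟨i, hi⟩ : Fin 9) ∈ setOf9 m.val ↔ (⟨i, hi⟩ : Fin 9) ∈ setOf9 n.val := by
      have h2 : setOf9 m.val = setOf9 n.val := h
      rw [h2]
    simp only [setOf9, Finset.mem_filter, Finset.mem_univ, true_and] at h1
    exact Bool.eq_iff_iff.mpr h1
  · have hm : m.val < 2 ^ i :=
      lt_of_lt_of_le m.isLt (by
        have : 2 ^ 9 ≤ 2 ^ i := Nat.pow_le_pow_right (by norm_num) (by omega)
        simpa using this)
    have hn : n.val < 2 ^ i :=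
      lt_of_lt_of_le n.isLt (by
        have : 2 ^ 9 ≤ 2 ^ i := Nat.pow_le_pow_right (by norm_num) (by omega)
        simpa using this)
    rw [Nat.testBit_lt_two_pow hm, Nat.testBit_lt_two_pow hn]

theorem setOf9_bij : Function.Bijective (fun m : Fin 512 => setOf9 m.val) := by
  rw [Fintype.bijective_iff_injective_and_card]
  exact ⟨setOf9_inj, by simp⟩

theorem par_inj : Function.Injective par := by
  intro v w h
  funext i
  fin_cases i
  · exact congrFun h 4
  · exact congrFun h 5
  · exact congrFun h 6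
  · exact congrFun h 7
  · exact congrFun h 8

theorem inter_eq (a : ℕ) (c : Fin 9 → ZMod 2) (e : Fin 9) :
    inter (setOf9 a) c e = zb (a.testBit e.val) * c e := by
  unfold inter setOf9 zb
  by_cases h : a.testBit e.val = true
  · simp [h]
  · simp [h]

theorem sum_nine (f : Fin 9 → ZMod 2) :
    ∑ e, f e = f 0 + f 1 + f 2 + f 3 + f 4 + f 5 + f 6 + f 7 + f 8 := by
  simp only [Fin.sum_univ_succ]
  simp
  ring

theorem mem_cocycles_iff (x : Fin 9 → ZMod 2) : x ∈ cocycles exM ↔
    (x 1 + x 2 + x 3 + x 4 = 0 ∧ x 0 + x 1 + x 3 + x 5 = 0 ∧ x 0 + x 2 + x 3 + x 6 = 0 ∧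
      x 2 + x 7 = 0 ∧ x 2 + x 8 = 0) := by
  constructor
  · intro h
    have key : ∀ v : Fin 5 → ZMod 2, ∑ e, par v e * x e = 0 := fun v => h _ ⟨v, rfl⟩
    refine ⟨?_, ?_, ?_, ?_, ?_⟩
    · have := key ![1, 0, 0, 0, 0]
      rw [sum_nine] at this
      simp [par] at this
      linear_combination this
    · have := key ![0, 1, 0, 0, 0]
      rw [sum_nine] at this
      simp [par] at this
      linear_combination this
    · have := key ![0, 0, 1, 0, 0]
      rw [sum_nine] at this
      simp [par] at this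
      linear_combination this
    · have := key ![0, 0, 0, 1, 0]
      rw [sum_nine] at this
      simp [par] at this
      linear_combination this
    · have := key ![0, 0, 0, 0, 1]
      rw [sum_nine] at this
      simp [par] at this
      linear_combination this
  · rintro ⟨h0, h1, h2, h3, h4⟩ c ⟨v, rfl⟩
    rw [sum_nine]
    simp [par]
    linear_combination v 0 * h0 + v 1 * h1 + v 2 * h2 + v 3 * h3 + v 4 * h4


theorem eq4_iff (b1 b2 b3 b4 c1 c2 c3 c4 : Bool) :
    (zb b1 * zb c1 + zb b2 * zb c2 + zb b3 * zb c3 + zb b4 * zb c4 = 0) ↔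
      (!(xor (xor (b1 && c1) (b2 && c2)) (xor (b3 && c3) (b4 && c4)))) = true := by
  revert b1 b2 b3 b4 c1 c2 c3 c4
  decide

theorem eq2_iff (b1 b2 c1 c2 : Bool) :
    (zb b1 * zb c1 + zb b2 * zb c2 = 0) ↔ (!(xor (b1 && c1) (b2 && c2))) = true := by
  revert b1 b2 c1 c2
  decide

theorem zb_xor (b c : Bool) : zb b + zb c = zb (xor b c) := by
  revert b c
  decide

theorem par_vecOf (m : ℕ) : par (vecOf m) =
    ![zb (xor (m.testBit 1) (m.testBit 2)), zb (xor (m.testBit 0) (m.testBit 1)),
      zb (xor (xor (m.testBit 0) (m.testBit 2)) (xor (m.testBit 3) (m.testBit 4))),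
      zb (xor (xor (m.testBit 0) (m.testBit 1)) (m.testBit 2)), zb (m.testBit 0),
      zb (m.testBit 1), zb (m.testBit 2), zb (m.testBit 3), zb (m.testBit 4)] := by
  simp only [← zb_xor]
  funext e
  fin_cases e <;> simp [par, vecOf]
  ring

theorem mem_bicycle_iff (a m : ℕ) :
    par (vecOf m) ∈ bicycle exM (setOf9 a) ↔ cond a m = true := by
  have h1 : par (vecOf m) ∈ bicycle exM (setOf9 a) ↔
      inter (setOf9 a) (par (vecOf m)) ∈ cocycles exM :=
    ⟨fun h => h.2, fun h => ⟨⟨vecOf m, rfl⟩, h⟩⟩
  rw [h1, mem_cocycles_iff, par_vecOf]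
  simp only [inter_eq]
  simp only [cond]
  simp only [Fin.isValue, Matrix.cons_val]
  rw [eq4_iff, eq4_iff, eq4_iff, eq2_iff, eq2_iff]
  simp only [Bool.and_eq_true]
  simp only [Fin.val_zero, Fin.val_one, and_assoc]
  rfl


theorem card_cond (p : ℕ → Bool) :
    Nat.card {m : Fin 32 // p m.val = true} = (List.range 32).countP p := by
  rw [Nat.card_eq_fintype_card, Fintype.card_subtype]
  have h1 : (List.range 32).countP p =
      ((List.range 32).toFinset.filter (fun m => p m = true)).card := by
    rw [← List.toFinset_filter, List.toFinset_card_of_nodup, List.countP_eq_length_filter]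
    exact List.Nodup.filter _ List.nodup_range
  rw [h1, ← Finset.card_map Fin.valEmbedding]
  congr 1
  ext x
  simp only [Finset.mem_map, Finset.mem_filter, Finset.mem_univ, true_and, List.mem_toFinset,
    List.mem_range, Fin.valEmbedding_apply]
  constructor
  · rintro ⟨a, ha, rfl⟩
    exact ⟨a.isLt, ha⟩
  · rintro ⟨hx, hp⟩
    exact ⟨⟨x, hx⟩, hp, rfl⟩

theorem card_bicycle (a : ℕ) (ha : a < 512) :
    Nat.card (bicycle exM (setOf9 a)) = 2 ^ tbl a := by
  rw [← cnt_eq' a ha]
  unfold cnt
  rw [← card_cond]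
  symm
  refine Nat.card_congr (Equiv.ofBijective
    (fun m => ⟨par (vecOf m.1.val), (mem_bicycle_iff a m.1.val).mpr m.2⟩) ⟨?_, ?_⟩)
  · intro m n h
    have h1 : par (vecOf m.1.val) = par (vecOf n.1.val) := congrArg Subtype.val h
    exact Subtype.ext (vecOf_inj (par_inj h1))
  · rintro ⟨c, hc⟩
    obtain ⟨v, hv⟩ := hc.1
    obtain ⟨m, hm⟩ := vecOf_bij.2 v
    have hm' : vecOf m.val = v := hm
    have h2 : par (vecOf m.val) = c := by rw [hm', hv]
    refine ⟨⟨m, ?_⟩, Subtype.ext h2⟩
    rw [← mem_bicycle_iff, h2]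
    exact hc

theorem finrank_bicycle (a : ℕ) (ha : a < 512) :
    Module.finrank (ZMod 2) (bicycle exM (setOf9 a)) = tbl a := by
  have h1 := card_bicycle a ha
  have h2 := Module.natCard_eq_pow_finrank (K := ZMod 2) (V := bicycle exM (setOf9 a))
  rw [h1, Nat.card_zmod] at h2
  exact (Nat.pow_right_injective (le_refl 2) h2).symm

/-- number of nonzero bits below 9 -/
def pop (a : ℕ) : ℕ := (List.range 9).countP (fun i => a.testBit i)

theorem card_setOf9 (a : ℕ) : (setOf9 a).card = pop a := by
  unfold setOf9 pop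
  rw [List.countP_eq_length_filter]
  have h1 : ((List.range 9).filter (fun i => a.testBit i)).length =
      ((List.range 9).toFinset.filter (fun i => a.testBit i = true)).card := by
    rw [← List.toFinset_filter, List.toFinset_card_of_nodup]
    exact List.Nodup.filter _ List.nodup_range
  rw [h1, ← Finset.card_map Fin.valEmbedding]
  congr 1
  ext x
  simp only [Finset.mem_map, Finset.mem_filter, Finset.mem_univ, true_and, List.mem_toFinset,
    List.mem_range, Fin.valEmbedding_apply]
  constructor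
  · rintro ⟨a, ha, rfl⟩
    exact ⟨a.isLt, ha⟩
  · rintro ⟨hx, hp⟩
    exact ⟨⟨x, hx⟩, hp, rfl⟩

theorem penrose_eq_sum : penrose exM =
    ∑ a ∈ Finset.range 512, (-1 : ℤ[X]) ^ pop a * X ^ tbl a := by
  unfold penrose
  rw [← Fin.sum_univ_eq_sum_range (fun a => (-1 : ℤ[X]) ^ pop a * X ^ tbl a) 512]
  symm
  refine Fintype.sum_bijective _ setOf9_bij _ _ ?_
  intro a
  rw [card_setOf9, finrank_bicycle a.val a.isLt]

/-- signed count of the `a < 512` with table entry `d` -/
def coefE (d : ℕ) : ℤ :=
  ∑ a ∈ Finset.range 512, if tbl a = d then (if pop a % 2 = 0 then (1 : ℤ) else -1) else 0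

theorem coefE_vals : coefE 0 = -8 ∧ coefE 1 = 28 ∧ coefE 2 = -38 ∧ coefE 3 = 25 ∧
    coefE 4 = -8 ∧ coefE 5 = 1 ∧ (List.range 512).all (fun a => Nat.blt (tbl a) 6) = true := by
  decide +kernel


theorem coefE_eq (d : ℕ) : coefE d =
    ∑ a ∈ Finset.range 512, (if tbl a = d then ((-1 : ℤ) ^ pop a) else 0) := by
  unfold coefE
  apply Finset.sum_congr rfl
  intro a _
  by_cases h : tbl a = d
  · simp only [h, if_true]
    rcases Nat.even_or_odd (pop a) with h2 | h2
    · rw [if_pos (Nat.even_iff.mp h2), h2.neg_one_pow]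
    · rw [if_neg (by rw [Nat.odd_iff.mp h2]; decide), h2.neg_one_pow]
  · simp only [h, if_false]

theorem penrose_value : penrose exM = (X - 1) ^ 2 * (X - 2) ^ 3 := by
  rw [penrose_eq_sum]
  obtain ⟨h0, h1, h2, h3, h4, h5, h6⟩ := coefE_vals
  have hlt : ∀ a ∈ Finset.range 512, tbl a ∈ Finset.range 6 := by
    intro a ha
    rw [List.all_eq_true] at h6
    have := h6 a (List.mem_range.mpr (Finset.mem_range.mp ha))
    rw [Finset.mem_range]
    exact Nat.blt_eq.mp this
  rw [← Finset.sum_fiberwise_of_maps_to hlt]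
  have key : ∀ d, ∑ a ∈ Finset.range 512 with tbl a = d, (-1 : ℤ[X]) ^ pop a * X ^ tbl a =
      C (coefE d) * X ^ d := by
    intro d
    rw [coefE_eq, map_sum, Finset.sum_mul, Finset.sum_filter]
    apply Finset.sum_congr rfl
    intro a _
    by_cases h : tbl a = d
    · simp [h]
    · simp [h]
  simp only [key]
  simp only [Finset.sum_range_succ, Finset.sum_range_zero, h0, h1, h2, h3, h4, h5]
  simp only [map_neg, map_ofNat, map_one]
  ring

/-- Boolean test whether the restriction of the vector with index `m` to the set `a` is a cycle. -/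
def sepB (a m : ℕ) : Bool :=
  let v0 := m.testBit 0
  let v1 := m.testBit 1
  let v2 := m.testBit 2
  let v3 := m.testBit 3
  let v4 := m.testBit 4
  let t0 := a.testBit 0 && xor v1 v2
  let t1 := a.testBit 1 && xor v0 v1
  let t2 := a.testBit 2 && xor (xor v0 v2) (xor v3 v4)
  let t3 := a.testBit 3 && xor (xor v0 v1) v2
  let t4 := a.testBit 4 && v0
  let t5 := a.testBit 5 && v1
  let t6 := a.testBit 6 && v2
  let t7 := a.testBit 7 && v3
  let t8 := a.testBit 8 && v4
  (t0 == xor t5 t6) && (t1 == xor t4 t5) && (t2 == xor (xor t4 t6) (xor t7 t8)) &&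
    (t3 == xor (xor t4 t5) t6)

theorem sepB_of_mem (a m : ℕ) (h : inter (setOf9 a) (par (vecOf m)) ∈ exM) :
    sepB a m = true := by
  have aux : ∀ x ∈ exM, x 0 = x 5 + x 6 ∧ x 1 = x 4 + x 5 ∧ x 2 = (x 4 + x 6) + (x 7 + x 8) ∧
      x 3 = (x 4 + x 5) + x 6 := by
    rintro x ⟨v, rfl⟩
    refine ⟨by simp [par], by simp [par], ?_, by simp [par]⟩
    simp [par]
    ring
  have zb_and : ∀ b c : Bool, zb b * zb c = zb (b && c) := by decide
  obtain ⟨h0, h1, h2, h3⟩ := aux _ h
  simp only [inter_eq, par_vecOf] at h0 h1 h2 h3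
  simp only [Fin.isValue, Matrix.cons_val, zb_and, zb_xor] at h0 h1 h2 h3
  have h0 := zb_inj h0
  have h1 := zb_inj h1
  have h2 := zb_inj h2
  have h3 := zb_inj h3
  simp only [sepB, Bool.and_eq_true, beq_iff_eq]
  exact ⟨⟨⟨h0, h1⟩, h2⟩, h3⟩

theorem sep_check : (List.range 512).all (fun a => Nat.beq a 0 || Nat.beq a 511 ||
    (List.range 32).any (fun m => !(sepB a m))) = true := by
  decide +kernel

theorem exM_connected : Connected exM := by
  refine ⟨⟨0⟩, ?_⟩
  rintro ⟨E₁, hne, hne', h⟩
  obtain ⟨a, ha⟩ := setOf9_bij.2 E₁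
  have ha' : setOf9 a.val = E₁ := ha
  have hc := sep_check
  rw [List.all_eq_true] at hc
  have hc := hc a.val (List.mem_range.mpr a.isLt)
  simp only [Bool.or_eq_true, List.any_eq_true] at hc
  rcases hc with (hc | hc) | hc
  · have h0 : a.val = 0 := Nat.eq_of_beq_eq_true hc
    obtain ⟨e, he⟩ := hne
    rw [← ha', h0] at he
    simp [setOf9] at he
  · have h0 : a.val = 511 := Nat.eq_of_beq_eq_true hc
    obtain ⟨e, he⟩ := hne'
    rw [← ha', h0] at he
    revert he
    revert e
    decide +kernel
  · obtain ⟨m, hm, hm2⟩ := hc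
    have h1 : inter E₁ (par (vecOf m)) ∈ exM := by
      obtain ⟨c₁, hc₁, c₂, hc₂, hsum⟩ := (h (par (vecOf m))).mp ⟨vecOf m, rfl⟩
      have h2 : inter E₁ (par (vecOf m)) = c₁ := by
        funext e
        unfold inter
        by_cases he : e ∈ E₁
        · rw [if_pos he, hsum, Pi.add_apply, hc₂.2 e (by simpa using he), add_zero]
        · rw [if_neg he, hc₁.2 e he]
      rw [h2]
      exact hc₁.1
    rw [← ha'] at h1
    rw [sepB_of_mem a.val m h1] at hm2
    exact absurd hm2 (by decide)

end Example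

theorem main_result : ∃ M : BinaryMatroid (Fin 9),
    Connected M ∧ penrose M ≠ 0 ∧ (X - C 1) ^ 2 ∣ penrose M ∧
      penrose M = (X - 1) ^ 2 * (X - 2) ^ 3 := by
  refine ⟨exM, exM_connected, ?_, ?_, penrose_value⟩
  · rw [penrose_value]
    have h1 : (X - 1 : ℤ[X]) ≠ 0 := by
      have := X_sub_C_ne_zero (1 : ℤ)
      simpa using this
    have h2 : (X - 2 : ℤ[X]) ≠ 0 := by
      have := X_sub_C_ne_zero (2 : ℤ)
      simpa using this
    exact mul_ne_zero (pow_ne_zero _ h1) (pow_ne_zero _ h2)
  · rw [penrose_value]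
    exact ⟨(X - 2) ^ 3, by simp⟩

end Pool.Agent.Lib.MP_8c6d5c_co
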